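import Pool.Agent.Helper63.TH.Goals

/-!
# PT-TH-DM: moments near `θ = 1/2`
-/

set_option autoImplicit false

namespace Pool.Agent.Helper82.TH

open Pool.Agent.Helper53.PT
open Pool.Agent.Helper63.P705 (NumOK gamN)
open Pool.Agent.Helper63.TH

theorem k1 : Nat.ble (Nat.mul (gamN 20481) 81920000) (Nat.mul (gamN 20480) 81927035) = true := by
  decide +kernel

theorem k2' : Nat.ble (Nat.mul (gamN 16385) 81920000) (Nat.mul (gamN 16384) 81924231) = true := by
  decide +kernel

theorem k3 : Nat.ble (Nat.mul (gamN 12287) 81920000) (Nat.mul (gamN 12288) 81919639) = true := by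
  decide +kernel

theorem k4 : Nat.ble (Nat.mul (gamN 12250) 81920000) (Nat.mul (gamN 12251) 81919679) = true := by
  decide +kernel

/-- from the kernel to the Gamma function -/
theorem ratio (h : NumOK) {p q A B : ℕ} (hp : 4096 ≤ p) (hp' : p < 65536) (hq : 4096 ≤ q)
    (hq' : q < 65536) (hk : Nat.ble (Nat.mul (gamN q) A) (Nat.mul (gamN p) B) = true) :
    (1 - 2⁻¹ ^ 50) * Real.Gamma ((q : ℝ) / 8192) * A ≤
      (1 + 2⁻¹ ^ 50) * Real.Gamma ((p : ℝ) / 8192) * B := by
  have h1 := (abs_le.1 (h.gam p hp hp')).2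
  have h2 := (abs_le.1 (h.gam q hq hq')).1
  have h3 : (gamN q : ℝ) * A ≤ gamN p * B := by
    have := Nat.le_of_ble_eq_true hk
    exact_mod_cast this
  have hA : (0 : ℝ) ≤ A := Nat.cast_nonneg _
  have hB : (0 : ℝ) ≤ B := Nat.cast_nonneg _
  have h4 : (1 - 2⁻¹ ^ 50) * Real.Gamma ((q : ℝ) / 8192) ≤ (gamN q : ℝ) / 2 ^ 60 := by linarith
  have h5 : (gamN p : ℝ) / 2 ^ 60 ≤ (1 + 2⁻¹ ^ 50) * Real.Gamma ((p : ℝ) / 8192) := by linarith
  calc (1 - 2⁻¹ ^ 50) * Real.Gamma ((q : ℝ) / 8192) * A ≤ (gamN q : ℝ) / 2 ^ 60 * A :=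
        mul_le_mul_of_nonneg_right h4 hA
    _ = (gamN q : ℝ) * A / 2 ^ 60 := by ring
    _ ≤ gamN p * B / 2 ^ 60 := by gcongr
    _ = (gamN p : ℝ) / 2 ^ 60 * B := by ring
    _ ≤ _ := mul_le_mul_of_nonneg_right h5 hB

theorem gpos {x : ℝ} (hx : 0 < x) : 0 < Real.Gamma x := Real.Gamma_pos_of_pos hx

/-- `8192 (log Γ(q) - log Γ(p)) ≤ c`. -/
theorem up {p q c : ℝ} (hp : 0 < p) (hq : 0 < q)
    (h : Real.Gamma q ≤ (1 + c / 8192) * Real.Gamma p) :
    Real.log (Real.Gamma q) - Real.log (Real.Gamma p) ≤ c / 8192 := by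
  have a := gpos hp
  have b := gpos hq
  rw [← Real.log_div b.ne' a.ne']
  have h1 : Real.Gamma q / Real.Gamma p ≤ 1 + c / 8192 := by
    rw [div_le_iff₀ a]; exact h
  have h2 := Real.log_le_sub_one_of_pos (div_pos b a)
  linarith

/-- `8192 (log Γ(q) - log Γ(p)) ≥ c`. -/
theorem dn {p q c : ℝ} (hp : 0 < p) (hq : 0 < q)
    (h : Real.Gamma p ≤ (1 - c / 8192) * Real.Gamma q) :
    c / 8192 ≤ Real.log (Real.Gamma q) - Real.log (Real.Gamma p) := by
  have a := gpos hp
  have b := gpos hq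
  have h1 : Real.Gamma p / Real.Gamma q ≤ 1 - c / 8192 := by
    rw [div_le_iff₀ b]; exact h
  have h2 := Real.log_le_sub_one_of_pos (div_pos a b)
  rw [Real.log_div a.ne' b.ne'] at h2
  linarith

theorem s1 (h : NumOK) : Real.log (Real.Gamma (20481 / 8192)) - Real.log (Real.Gamma (5 / 2)) ≤
    0.704 / 8192 := by
  have h1 := ratio h (p := 20480) (q := 20481) (by norm_num) (by norm_num) (by norm_num)
    (by norm_num) k1
  have e1 : ((20480 : ℕ) : ℝ) / 8192 = 5 / 2 := by norm_num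
  have e2 : ((20481 : ℕ) : ℝ) / 8192 = 20481 / 8192 := by norm_num
  rw [e1, e2] at h1
  have a := gpos (show (0 : ℝ) < 5 / 2 by norm_num)
  have b := gpos (show (0 : ℝ) < 20481 / 8192 by norm_num)
  refine up (by norm_num) (by norm_num) ?_
  norm_num at h1 ⊢
  linarith

theorem s2 (h : NumOK) : Real.log (Real.Gamma (16385 / 8192)) - Real.log (Real.Gamma 2) ≤
    0.4235 / 8192 := by
  have h1 := ratio h (p := 16384) (q := 16385) (by norm_num) (by norm_num) (by norm_num)
    (by norm_num) k2'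
  have e1 : ((16384 : ℕ) : ℝ) / 8192 = 2 := by norm_num
  have e2 : ((16385 : ℕ) : ℝ) / 8192 = 16385 / 8192 := by norm_num
  rw [e1, e2] at h1
  have a := gpos (show (0 : ℝ) < 2 by norm_num)
  have b := gpos (show (0 : ℝ) < 16385 / 8192 by norm_num)
  refine up (by norm_num) (by norm_num) ?_
  norm_num at h1 ⊢
  linarith

theorem s3 (h : NumOK) : 0.036 / 8192 ≤
    Real.log (Real.Gamma (3 / 2)) - Real.log (Real.Gamma (12287 / 8192)) := by
  have h1 := ratio h (p := 12288) (q := 12287) (by norm_num) (by norm_num) (by norm_num)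
    (by norm_num) k3
  have e1 : ((12288 : ℕ) : ℝ) / 8192 = 3 / 2 := by norm_num
  have e2 : ((12287 : ℕ) : ℝ) / 8192 = 12287 / 8192 := by norm_num
  rw [e1, e2] at h1
  have a := gpos (show (0 : ℝ) < 3 / 2 by norm_num)
  have b := gpos (show (0 : ℝ) < 12287 / 8192 by norm_num)
  refine dn (by norm_num) (by norm_num) ?_
  norm_num at h1 ⊢
  linarith

theorem s4 (h : NumOK) : 0.032 / 8192 ≤
    Real.log (Real.Gamma (12251 / 8192)) - Real.log (Real.Gamma (12250 / 8192)) := by
  have h1 := ratio h (p := 12251) (q := 12250) (by norm_num) (by norm_num) (by norm_num)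
    (by norm_num) k4
  have e1 : ((12251 : ℕ) : ℝ) / 8192 = 12251 / 8192 := by norm_num
  have e2 : ((12250 : ℕ) : ℝ) / 8192 = 12250 / 8192 := by norm_num
  rw [e1, e2] at h1
  have a := gpos (show (0 : ℝ) < 12251 / 8192 by norm_num)
  have b := gpos (show (0 : ℝ) < 12250 / 8192 by norm_num)
  refine dn (by norm_num) (by norm_num) ?_
  norm_num at h1 ⊢
  linarith

/-- convexity of `log Γ`: three points -/
theorem three {x y z : ℝ} (hx : 0 < x) (hxy : x < y) (hyz : y < z) :
    (Real.log (Real.Gamma y) - Real.log (Real.Gamma x)) / (y - x) ≤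
      (Real.log (Real.Gamma z) - Real.log (Real.Gamma y)) / (z - y) :=
  Real.convexOn_log_Gamma.slope_mono_adjacent (x := x) (y := y) (z := z) hx
    (show (0 : ℝ) < z by linarith) hxy hyz

section
variable {δ : ℝ} (h0 : 0 < δ) (h1 : δ ≤ 36 / 8192)
include h0 h1

theorem t1 (h : NumOK) : Real.log (Real.Gamma (5 / 2)) - 3 * δ * 0.704 ≤
    Real.log (Real.Gamma (5 / 2 - 3 * δ)) := by
  have a := three (x := 5 / 2 - 3 * δ) (y := 5 / 2) (z := 20481 / 8192) (by linarith)
    (by linarith) (by norm_num)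
  have b := s1 h
  have c : (Real.log (Real.Gamma (20481 / 8192)) - Real.log (Real.Gamma (5 / 2))) /
      (20481 / 8192 - 5 / 2) ≤ 0.704 := by
    rw [div_le_iff₀ (by norm_num)]
    norm_num at b ⊢
    linarith
  have d := a.trans c
  rw [div_le_iff₀ (by linarith)] at d
  linarith

theorem t2 (h : NumOK) : Real.log (Real.Gamma 2) - 2 * δ * 0.4235 ≤
    Real.log (Real.Gamma (2 - 2 * δ)) := by
  have a := three (x := 2 - 2 * δ) (y := 2) (z := 16385 / 8192) (by linarith)
    (by linarith) (by norm_num)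
  have b := s2 h
  have c : (Real.log (Real.Gamma (16385 / 8192)) - Real.log (Real.Gamma 2)) /
      (16385 / 8192 - 2) ≤ 0.4235 := by
    rw [div_le_iff₀ (by norm_num)]
    norm_num at b ⊢
    linarith
  have d := a.trans c
  rw [div_le_iff₀ (by linarith)] at d
  linarith

omit h1 in
theorem t3 (h : NumOK) : Real.log (Real.Gamma (3 / 2)) + δ * 0.036 ≤
    Real.log (Real.Gamma (3 / 2 + δ)) := by
  have a := three (x := 12287 / 8192) (y := 3 / 2) (z := 3 / 2 + δ) (by norm_num)
    (by norm_num) (by linarith)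
  have b := s3 h
  have c : 0.036 ≤ (Real.log (Real.Gamma (3 / 2)) - Real.log (Real.Gamma (12287 / 8192))) /
      (3 / 2 - 12287 / 8192) := by
    rw [le_div_iff₀ (by norm_num)]
    norm_num at b ⊢
    linarith
  have d := c.trans a
  rw [le_div_iff₀ (by linarith)] at d
  linarith

theorem t4 (h : NumOK) : Real.log (Real.Gamma (3 / 2 - δ)) ≤
    Real.log (Real.Gamma (3 / 2)) - δ * 0.032 := by
  have a := three (x := 12251 / 8192) (y := 3 / 2 - δ) (z := 3 / 2) (by norm_num)
    (by linarith) (by linarith)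
  have a' := three (x := 12250 / 8192) (y := 12251 / 8192) (z := 3 / 2 - δ) (by norm_num)
    (by norm_num) (by linarith)
  have b := s4 h
  have c : 0.032 ≤ (Real.log (Real.Gamma (12251 / 8192)) - Real.log (Real.Gamma (12250 / 8192))) /
      (12251 / 8192 - 12250 / 8192) := by
    rw [le_div_iff₀ (by norm_num)]
    norm_num at b ⊢
    linarith
  have d := (c.trans a').trans a
  rw [le_div_iff₀ (by linarith)] at d
  linarith

omit h1 in
/-- `Γ(1/2+δ) = Γ(3/2+δ)/(1/2+δ)` -/
theorem t5 : Real.log (Real.Gamma (3 / 2 + δ)) + Real.log 2 - 2 * δ ≤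
    Real.log (Real.Gamma (1 / 2 + δ)) := by
  have e : Real.Gamma (3 / 2 + δ) = (1 / 2 + δ) * Real.Gamma (1 / 2 + δ) := by
    rw [← Real.Gamma_add_one (by linarith)]; congr 1; ring
  have a := gpos (show (0 : ℝ) < 1 / 2 + δ by linarith)
  rw [e, Real.log_mul (by linarith) a.ne']
  have b : Real.log (1 / 2 + δ) + Real.log 2 ≤ 2 * δ := by
    rw [← Real.log_mul (by linarith) (by norm_num)]
    have := Real.log_le_sub_one_of_pos (show (0 : ℝ) < (1 / 2 + δ) * 2 by linarith)
    linarith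
  linarith
end

theorem g32 : Real.Gamma (3 / 2) = √Real.pi / 2 := by
  have e : Real.Gamma (3 / 2) = Real.Gamma (1 / 2 + 1) := by congr 1; norm_num
  rw [e, Real.Gamma_add_one (by norm_num), Real.Gamma_one_half_eq]; ring

theorem g52 : Real.Gamma (5 / 2) = 3 / 4 * √Real.pi := by
  have e : Real.Gamma (5 / 2) = Real.Gamma (3 / 2 + 1) := by congr 1; norm_num
  rw [e, Real.Gamma_add_one (by norm_num), g32]; ring

/-- the basic inequality -/
theorem fin {a c k δ : ℝ} (ha : 0 < a) (hc : 0 < c) (h : Real.log c - k * δ ≤ Real.log a) :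
    c - a ≤ c * k * δ := by
  have h1 : c * Real.exp (-(k * δ)) ≤ a := by
    rw [← Real.exp_log ha]
    calc c * Real.exp (-(k * δ)) = Real.exp (Real.log c) * Real.exp (-(k * δ)) := by
          rw [Real.exp_log hc]
      _ = Real.exp (Real.log c - k * δ) := by rw [← Real.exp_add]; ring_nf
      _ ≤ _ := Real.exp_le_exp.2 h
  have h2 := Real.add_one_le_exp (-(k * δ))
  have h3 : c * (-(k * δ) + 1) ≤ c * Real.exp (-(k * δ)) := mul_le_mul_of_nonneg_left h2 hc.le
  nlinarith

theorem gDM : GDM := by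
  intro hN θ ha hb
  obtain ⟨δ, rfl⟩ : ∃ δ : ℝ, θ = 1 / 2 - δ := ⟨1 / 2 - θ, by ring⟩
  have h0 : 0 < δ := by linarith
  have h1 : δ ≤ 36 / 8192 := by linarith
  have A1 := t1 h0 h1 hN
  have A2 := t2 h0 h1 hN
  have A3 := t3 h0 hN
  have A4 := t4 h0 h1 hN
  have A5 := t5 h0
  have p1 := gpos (show (0 : ℝ) < 5 / 2 - 3 * δ by linarith)
  have p2 := gpos (show (0 : ℝ) < 2 - 2 * δ by linarith)
  have p3 := gpos (show (0 : ℝ) < 3 / 2 - δ by linarith)
  have p4 := gpos (show (0 : ℝ) < 1 / 2 + δ by linarith)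
  have hpi := Real.pi_pos
  have hsp : 0 < √Real.pi := Real.sqrt_pos.2 hpi
  have E : 1 / 2 - (1 / 2 - δ) = δ := by ring
  rw [E]
  have q1 : 1 + (2 * ((2 : ℕ) : ℝ) - 1) * (1 / 2 - δ) = 5 / 2 - 3 * δ := by push_cast; ring
  have q2 : 1 - (1 / 2 - δ) = 1 / 2 + δ := by ring
  have q3 : 1 + (1 / 2 - δ) = 3 / 2 - δ := by ring
  have q4 : 1 + 2 * (1 / 2 - δ) = 2 - 2 * δ := by ring
  have L2 : Real.log (Real.Gamma (3 / 2)) = Real.log (√Real.pi) - Real.log 2 := by
    rw [g32, Real.log_div hsp.ne' (by norm_num)]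
  have L5 : Real.log (Real.Gamma (5 / 2)) = Real.log 3 - 2 * Real.log 2 + Real.log (√Real.pi) := by
    rw [g52, Real.log_mul (by norm_num) hsp.ne', Real.log_div (by norm_num) (by norm_num)]
    have : Real.log 4 = 2 * Real.log 2 := by
      rw [show (4 : ℝ) = 2 ^ 2 by norm_num, Real.log_pow]; norm_num
    rw [this]
  constructor
  · have hm : mo (1 / 2 - δ) 2 = Real.Gamma (5 / 2 - 3 * δ) * Real.Gamma (1 / 2 + δ) /
        (Real.Gamma (3 / 2 - δ) * Real.Gamma (3 / 2 - δ)) := by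
      unfold mo
      rw [q1, q2, q3]
      field_simp
    have hm0 : 0 < mo (1 / 2 - δ) 2 := by rw [hm]; positivity
    have hl : Real.log (mo (1 / 2 - δ) 2) = Real.log (Real.Gamma (5 / 2 - 3 * δ)) +
        Real.log (Real.Gamma (1 / 2 + δ)) - 2 * Real.log (Real.Gamma (3 / 2 - δ)) := by
      rw [hm, Real.log_div (by positivity) (by positivity), Real.log_mul p1.ne' p4.ne',
        Real.log_mul p3.ne' p3.ne']
      ring
    have := fin (k := 4.03) (δ := δ) hm0 (show (0 : ℝ) < 3 by norm_num) (by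
      rw [hl]; linarith)
    linarith
  · have hm : m3 (1 / 2 - δ) = Real.Gamma (2 - 2 * δ) / Real.Gamma (1 / 2 + δ) *
        (Real.Gamma (1 / 2 + δ) / Real.Gamma (3 / 2 - δ)) ^ (3 / 2 : ℝ) := by
      unfold m3
      rw [q2, q3, q4]
    have hm0 : 0 < m3 (1 / 2 - δ) := by rw [hm]; positivity
    have hl : Real.log (m3 (1 / 2 - δ)) = Real.log (Real.Gamma (2 - 2 * δ)) +
        1 / 2 * Real.log (Real.Gamma (1 / 2 + δ)) - 3 / 2 * Real.log (Real.Gamma (3 / 2 - δ)) := by
      rw [hm, Real.log_mul (by positivity) (by positivity), Real.log_div p2.ne' p4.ne',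
        Real.log_rpow (by positivity), Real.log_div p4.ne' p3.ne']
      ring
    have hc : m3 (1 / 2) = Real.Gamma 2 / Real.Gamma (1 / 2) *
        (Real.Gamma (1 / 2) / Real.Gamma (3 / 2)) ^ (3 / 2 : ℝ) := by
      unfold m3
      norm_num
    have r1 : Real.Gamma (1 / 2) / Real.Gamma (3 / 2) = 2 := by
      rw [Real.Gamma_one_half_eq, g32]; field_simp
    have hc0 : 0 < m3 (1 / 2) := by
      rw [hc, r1, Real.Gamma_one_half_eq, Real.Gamma_two]; positivity
    have hlc : Real.log (m3 (1 / 2)) = 3 / 2 * Real.log 2 - Real.log (√Real.pi) := by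
      rw [hc, r1, Real.Gamma_one_half_eq, Real.Gamma_two, Real.log_mul (by positivity)
        (by positivity), Real.log_div (by norm_num) hsp.ne', Real.log_rpow (by norm_num),
        Real.log_one]
      ring
    have hle : m3 (1 / 2) ≤ 1.6 := by
      have e8 : ((2 : ℝ) ^ (3 / 2 : ℝ)) ^ 2 = 8 := by
        rw [← Real.rpow_natCast, ← Real.rpow_mul (by norm_num)]
        norm_num
      have b : m3 (1 / 2) ^ 2 = 8 / Real.pi := by
        rw [hc, r1, Real.Gamma_one_half_eq, Real.Gamma_two, mul_pow, div_pow,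
          Real.sq_sqrt hpi.le, e8]
        ring
      have c : 8 / Real.pi ≤ 1.6 ^ 2 := by
        rw [div_le_iff₀ hpi]
        have := Real.pi_gt_d2
        norm_num at this ⊢
        linarith
      rw [← b] at c
      exact le_of_sq_le_sq c (by norm_num)
    have g2 : Real.log (Real.Gamma 2) = 0 := by rw [Real.Gamma_two, Real.log_one]
    have := fin (k := 1.79) (δ := δ) hm0 hc0 (by
      rw [hl, hlc]; linarith)
    nlinarith

end Pool.Agent.Helper82.TH
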